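import Pool.Agent.Helper66.NT.Group

/-!
# A relation which is constant modulo `r` on a half system
-/

open MulAction

namespace Pool.Agent.Helper66.NT

variable {G S : Type} [Group G] [MulAction G S]

/-- Some element of a nonzero saturated subgroup is nonzero modulo `r`. -/
theorem exists_not_dvd {r : ℕ} (hr : 2 ≤ r) (M : AddSubgroup (S → ℤ))
    (hsat : ∀ m : S → ℤ, (fun x => (r : ℤ) * m x) ∈ M → m ∈ M) {m₀ : S → ℤ} (hm₀ : m₀ ∈ M)
    (h0 : m₀ ≠ 0) : ∃ m ∈ M, ∃ x, ¬ (r : ℤ) ∣ m x := by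
  by_contra hcon
  push Not at hcon
  have hpow : ∀ j : ℕ, ∀ m ∈ M, ∀ x, (r : ℤ) ^ j ∣ m x := by
    intro j
    induction j with
    | zero => intro m _ x; simp
    | succ j ih =>
      intro m hm x
      choose d hd using hcon m hm
      have hdM : d ∈ M := by
        apply hsat
        have : (fun x => (r : ℤ) * d x) = m := by
          funext x
          rw [← hd x]
        rw [this]
        exact hm
      obtain ⟨e, he⟩ := ih d hdM x
      exact ⟨e, by rw [hd x, he, pow_succ]; ring⟩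
  apply h0
  funext x
  have h1 := hpow ((m₀ x).natAbs) m₀ hm₀ x
  show m₀ x = 0
  apply Int.eq_zero_of_abs_lt_dvd h1
  rw [Int.abs_eq_natAbs]
  have h2 : (m₀ x).natAbs < r ^ (m₀ x).natAbs := Nat.lt_pow_self (by omega)
  exact_mod_cast h2

/-- The main combinatorial statement. -/
theorem exists_half_mod [Finite G] [Fintype S] [IsPretransitive G S] {ι : S → S}
    (hι : ∀ x, ι (ι x) = x) (hne : ∀ x, ι x ≠ x)
    (hcomm : ∀ (g : G) (x : S), g • ι x = ι (g • x)) {r k : ℕ} [hr : Fact r.Prime]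
    (hS : Nat.card S = 2 * r ^ k) (W : AddSubgroup (S → ZMod r))
    (hstab : ∀ m ∈ W, ∀ g : G, (fun x => m (g • x)) ∈ W) (hodd : ∀ m ∈ W, ∀ x, m (ι x) = - m x)
    {m₀ : S → ZMod r} (hm₀ : m₀ ∈ W) (h0 : m₀ ≠ 0) :
    ∃ m ∈ W, ∃ T : Finset S, (∀ x, ι x ∈ T ↔ x ∉ T) ∧
      ∃ u : ZMod r, u ≠ 0 ∧ ∀ x ∈ T, m x = u := by
  classical
  let P : Sylow r G := default
  let act : MulAction P W :=
    { smul := fun g w => ⟨fun x => w.1 ((g⁻¹ : P).1 • x), hstab w.1 w.2 _⟩
      one_smul := by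
        intro w
        apply Subtype.ext
        funext x
        show w.1 (((1 : P)⁻¹ : P).1 • x) = w.1 x
        rw [inv_one]
        show w.1 ((1 : G) • x) = w.1 x
        rw [one_smul]
      mul_smul := by
        intro g h w
        apply Subtype.ext
        funext x
        show w.1 (((g * h)⁻¹ : P).1 • x) = w.1 ((h⁻¹ : P).1 • (g⁻¹ : P).1 • x)
        rw [mul_inv_rev, ← mul_smul]
        rfl }
  have hsmul : ∀ (g : P) (w : W) (x : S), (g • w).1 x = w.1 ((g⁻¹ : P).1 • x) :=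
    fun _ _ _ => rfl
  have hfinW : Finite W := Subtype.finite
  have hWcard : r ∣ Nat.card W := by
    have hnt : Nontrivial W := by
      refine ⟨⟨⟨m₀, hm₀⟩, 0, ?_⟩⟩
      intro h
      exact h0 (congrArg Subtype.val h)
    have hp : IsPGroup r (Multiplicative W) := by
      intro w
      refine ⟨1, ?_⟩
      rw [pow_one]
      apply Multiplicative.toAdd.injective
      rw [toAdd_pow, toAdd_one]
      apply Subtype.ext
      funext x
      have : ((r • (Multiplicative.toAdd w) : W) : S → ZMod r) x =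
          (r : ZMod r) * (Multiplicative.toAdd w).1 x := by
        rw [AddSubgroup.coe_nsmul, Pi.smul_apply, nsmul_eq_mul]
      rw [this, ZMod.natCast_self, zero_mul]
      rfl
    have hnt' : Nontrivial (Multiplicative W) := hnt
    obtain ⟨a, ha, hc⟩ := (IsPGroup.nontrivial_iff_card hp).1 hnt'
    have hc' : Nat.card W = r ^ a := hc
    rw [hc']
    exact dvd_pow_self r ha.ne'
  have hPP : IsPGroup r P := P.isPGroup'
  have hfix0 : (0 : W) ∈ fixedPoints P W := by
    intro g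
    rfl
  obtain ⟨w, hw, hw0⟩ := hPP.exists_fixed_point_of_prime_dvd_card_of_fixed_point W hWcard hfix0
  have hinv : ∀ g ∈ P, ∀ x : S, w.1 (g • x) = w.1 x := by
    intro g hg x
    have h1 := hw ((⟨g, hg⟩ : P)⁻¹)
    have h2 := congrFun (congrArg Subtype.val h1) x
    rw [hsmul, inv_inv] at h2
    exact h2
  have hanti : ∀ x, w.1 (ι x) = - w.1 x := hodd w.1 w.2
  obtain ⟨x₀, hx₀⟩ : ∃ x₀, w.1 x₀ ≠ 0 := by
    by_contra hcon
    push Not at hcon
    apply hw0
    apply Subtype.ext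
    funext x
    exact (hcon x).symm
  set u := w.1 x₀ with hu
  have hpm : ∀ y, w.1 y = u ∨ w.1 y = -u := by
    intro y
    obtain ⟨g, hg, h | h⟩ := sylow_pairs hι hne hcomm hS P x₀ y
    · left
      rw [← h, hinv g hg]
    · right
      have h1 : y = ι (g • x₀) := by rw [h, hι]
      rw [h1, hanti, hinv g hg]
  refine ⟨w.1, w.2, ?_⟩
  by_cases h2 : u = -u
  · -- here `r = 2`; choose any half system
    have hall : ∀ y, w.1 y = u := by
      intro y
      rcases hpm y with h | h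
      · exact h
      · rw [h, ← h2]
    let e := Fintype.equivFin S
    refine ⟨Finset.univ.filter fun x => e x < e (ι x), ?_, u, hx₀, ?_⟩
    · intro x
      rw [Finset.mem_filter, Finset.mem_filter, hι]
      have hne' : e x ≠ e (ι x) := fun h => hne x (e.injective h).symm
      constructor
      · rintro ⟨_, h⟩ ⟨_, h'⟩
        exact absurd h' (lt_asymm h)
      · intro h
        refine ⟨Finset.mem_univ _, ?_⟩
        rcases lt_trichotomy (e x) (e (ι x)) with h' | h' | h'
        · exact absurd ⟨Finset.mem_univ _, h'⟩ h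
        · exact absurd h' hne'
        · exact h'
    · intro x _
      exact hall x
  · refine ⟨Finset.univ.filter fun x => w.1 x = u, ?_, u, hx₀, ?_⟩
    · intro x
      rw [Finset.mem_filter, Finset.mem_filter, hanti]
      constructor
      · rintro ⟨_, h⟩ ⟨_, h'⟩
        rw [h'] at h
        exact h2 h.symm
      · intro h
        refine ⟨Finset.mem_univ _, ?_⟩
        rcases hpm x with h' | h'
        · exact absurd ⟨Finset.mem_univ _, h'⟩ h
        · rw [h', neg_neg]
    · intro x hx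
      exact (Finset.mem_filter.1 hx).2

/-- The version with a block `B` of `2 r ^ k` points. -/
theorem exists_half_block [Finite G] [Fintype S] {ι : S → S} (hι : ∀ x, ι (ι x) = x)
    (hne : ∀ x, ι x ≠ x) (hcomm : ∀ (g : G) (x : S), g • ι x = ι (g • x)) {r k : ℕ}
    [hr : Fact r.Prime] (htr : ∀ x y : S, ∃ g : G, g • x = y) (B : Set S)
    (hBι : ∀ x ∈ B, ι x ∈ B) (hB : ∀ (g : G) (x : S), x ∈ B → g • x ∈ B → ∀ y ∈ B, g • y ∈ B)
    (hcard : Nat.card B = 2 * r ^ k) (M : AddSubgroup (S → ℤ))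
    (hstab : ∀ m ∈ M, ∀ g : G, (fun x => m (g • x)) ∈ M) (hodd : ∀ m ∈ M, ∀ x, m (ι x) = - m x)
    (hsat : ∀ m : S → ℤ, (fun x => (r : ℤ) * m x) ∈ M → m ∈ M) {m₀ : S → ℤ} (hm₀ : m₀ ∈ M)
    (h0 : m₀ ≠ 0) :
    ∃ m ∈ M, ∃ T : Finset S, (∀ x ∈ T, x ∈ B) ∧ (∀ x ∈ B, ι x ∈ T ↔ x ∉ T) ∧
      ∃ u : ZMod r, u ≠ 0 ∧ ∀ x ∈ T, (m x : ZMod r) = u := by
  classical
  obtain ⟨m₁, hm₁, x₁, hx₁⟩ := exists_not_dvd hr.out.two_le M hsat hm₀ h0
  have hBne : B.Nonempty := by
    rw [Set.nonempty_iff_ne_empty]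
    intro h
    rw [h, Nat.card_coe_set_eq, Set.ncard_empty] at hcard
    have h1 : 0 < r ^ k := pow_pos hr.out.pos k
    omega
  obtain ⟨b₀, hb₀⟩ := hBne
  -- the stabilizer of the block
  have hB' : ∀ (g : G) (x : S), x ∈ B → g • x ∈ B → ∀ y, g • y ∈ B → y ∈ B := by
    intro g x hx hgx y hy
    have h1 := hB g⁻¹ (g • x) hgx (by rw [inv_smul_smul]; exact hx) (g • y) hy
    rwa [inv_smul_smul] at h1
  let H : Subgroup G :=
    { carrier := {g | g • b₀ ∈ B}
      one_mem' := by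
        show (1 : G) • b₀ ∈ B
        rw [one_smul]; exact hb₀
      mul_mem' := by
        intro g h hg hh
        show (g * h) • b₀ ∈ B
        rw [mul_smul]
        exact hB g b₀ hb₀ hg _ hh
      inv_mem' := by
        intro g hg
        show g⁻¹ • b₀ ∈ B
        apply hB' g b₀ hb₀ hg
        rw [smul_inv_smul]
        exact hb₀ }
  have hHmem : ∀ g : H, ∀ x ∈ B, g.1 • x ∈ B := fun g x hx => hB g.1 b₀ hb₀ g.2 x hx
  let actB : MulAction H B :=
    { smul := fun g x => ⟨g.1 • x.1, hHmem g x.1 x.2⟩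
      one_smul := by
        intro x
        apply Subtype.ext
        exact one_smul G x.1
      mul_smul := by
        intro g h x
        apply Subtype.ext
        exact mul_smul g.1 h.1 x.1 }
  have hactB : ∀ (g : H) (x : B), (g • x).1 = g.1 • x.1 := fun _ _ => rfl
  have htrB : IsPretransitive H B := by
    refine ⟨fun x y => ?_⟩
    obtain ⟨g, hg⟩ := htr x.1 y.1
    refine ⟨⟨g, hB g x.1 x.2 (by rw [hg]; exact y.2) b₀ hb₀⟩, ?_⟩
    apply Subtype.ext
    exact hg
  let ιB : B → B := fun x => ⟨ι x.1, hBι x.1 x.2⟩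
  let red : (S → ℤ) →+ (B → ZMod r) :=
    { toFun := fun m x => (m x.1 : ZMod r)
      map_zero' := by funext x; simp
      map_add' := by intro a b; funext x; simp }
  obtain ⟨g₀, hg₀⟩ := htr b₀ x₁
  have hfB : Fintype B := Fintype.ofFinite B
  obtain ⟨w, hw, T, hT, u, hu, huT⟩ := exists_half_mod (G := H) (S := B) (ι := ιB)
    (fun x => Subtype.ext (hι x.1)) (fun x h => hne x.1 (congrArg Subtype.val h))
    (fun g x => Subtype.ext (hcomm g.1 x.1)) hcard (M.map red)
    (by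
      rintro _ ⟨m, hm, rfl⟩ g
      exact ⟨fun x => m (g.1 • x), hstab m hm g.1, rfl⟩)
    (by
      rintro _ ⟨m, hm, rfl⟩ x
      show ((m (ι x.1) : ℤ) : ZMod r) = -((m x.1 : ℤ) : ZMod r)
      rw [hodd m hm]
      push_cast
      rfl)
    (m₀ := red fun x => m₁ (g₀ • x)) ⟨_, hstab m₁ hm₁ g₀, rfl⟩
    (by
      intro h
      apply hx₁
      have h1 : ((m₁ (g₀ • b₀) : ℤ) : ZMod r) = 0 := congrFun h ⟨b₀, hb₀⟩
      rw [hg₀] at h1
      rwa [ZMod.intCast_zmod_eq_zero_iff_dvd] at h1)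
  obtain ⟨m, hm, rfl⟩ := hw
  refine ⟨m, hm, T.map ⟨Subtype.val, Subtype.val_injective⟩, ?_, ?_, u, hu, ?_⟩
  · intro x hx
    rw [Finset.mem_map] at hx
    obtain ⟨y, _, rfl⟩ := hx
    exact y.2
  · intro x hx
    have h1 := hT ⟨x, hx⟩
    have h2 : ∀ y (hy : y ∈ B), y ∈ T.map ⟨Subtype.val, Subtype.val_injective⟩ ↔
        (⟨y, hy⟩ : B) ∈ T := by
      intro y hy
      rw [Finset.mem_map]
      constructor
      · rintro ⟨z, hz, h⟩
        have : z = ⟨y, hy⟩ := Subtype.ext h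
        rwa [← this]
      · intro h
        exact ⟨⟨y, hy⟩, h, rfl⟩
    rw [h2 x hx, h2 (ι x) (hBι x hx)]
    exact h1
  · intro x hx
    rw [Finset.mem_map] at hx
    obtain ⟨y, hy, rfl⟩ := hx
    exact huT y hy

end Pool.Agent.Helper66.NT
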