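import Pool.Agent.Helper66.NT.Half

/-!
# The relation theorem for group actions
-/

open MulAction

namespace Pool.Agent.Helper66.NT

variable {G S : Type} [Group G] [MulAction G S]

theorem sum_half [Fintype S] [DecidableEq S] {ι : S → S} (hι : ∀ x, ι (ι x) = x) (U : Finset S)
    (hU : ∀ x, ι x ∈ U ↔ x ∉ U) (f : S → ℚ) (hf : ∀ x, f (ι x) = f x) :
    ∑ x, f x = 2 * ∑ x ∈ U, f x := by
  have h1 : ∑ x ∈ Uᶜ, f x = ∑ x ∈ U, f x := by
    refine Finset.sum_nbij' ι ι ?_ ?_ ?_ ?_ ?_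
    · intro x hx
      rw [Finset.mem_compl] at hx
      exact (hU x).2 hx
    · intro x hx
      rw [Finset.mem_compl]
      intro h
      exact (hU x).1 h hx
    · intro x _
      exact hι x
    · intro x _
      exact hι x
    · intro x _
      exact (hf x).symm
  rw [← Finset.sum_add_sum_compl U, h1]
  ring

theorem relation_zero [Finite G] [Fintype S] {ι : S → S} (hι : ∀ x, ι (ι x) = x)
    (hne : ∀ x, ι x ≠ x) (hcomm : ∀ (g : G) (x : S), g • ι x = ι (g • x)) {r k : ℕ}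
    [hr : Fact r.Prime] (htr : ∀ x y : S, ∃ g : G, g • x = y) (B : Set S)
    (hBι : ∀ x ∈ B, ι x ∈ B) (hB : ∀ (g : G) (x : S), x ∈ B → g • x ∈ B → ∀ y ∈ B, g • y ∈ B)
    (hcard : Nat.card B = 2 * r ^ k) (w : S → ℚ) (hw : ∀ x, w (ι x) = - w x) {ρ : ℚ}
    (hρ : 0 < ρ) (h1 : ∀ x ∈ B, padicNorm r (w x) ≤ ρ) (h2 : ∀ x, x ∉ B → padicNorm r (w x) < ρ)
    (h3 : ∀ T : Finset S, (∀ x ∈ T, x ∈ B) → (∀ x ∈ B, ι x ∈ T ↔ x ∉ T) →
      padicNorm r (∑ x ∈ T, w x) = ρ)
    (m₀ : S → ℤ) (hodd : ∀ x, m₀ (ι x) = - m₀ x)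
    (hrel : ∀ g : G, ∑ x, (m₀ x : ℚ) * w (g • x) = 0) : m₀ = 0 := by
  classical
  by_contra h0
  let M : AddSubgroup (S → ℤ) :=
    { carrier := {m | (∀ x, m (ι x) = - m x) ∧ ∀ g : G, ∑ x, (m x : ℚ) * w (g • x) = 0}
      zero_mem' := by
        refine ⟨fun x => by simp, fun g => by simp⟩
      add_mem' := by
        rintro a b ⟨ha, ha'⟩ ⟨hb, hb'⟩
        refine ⟨fun x => ?_, fun g => ?_⟩
        · rw [Pi.add_apply, Pi.add_apply, ha, hb]; ring
        · have : ∀ x, (((a + b) x : ℤ) : ℚ) * w (g • x) =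
              (a x : ℚ) * w (g • x) + (b x : ℚ) * w (g • x) := by
            intro x
            rw [Pi.add_apply]; push_cast; ring
          simp only [this]
          rw [Finset.sum_add_distrib, ha', hb', add_zero]
      neg_mem' := by
        rintro a ⟨ha, ha'⟩
        refine ⟨fun x => ?_, fun g => ?_⟩
        · rw [Pi.neg_apply, Pi.neg_apply, ha]
        · have : ∀ x, (((-a) x : ℤ) : ℚ) * w (g • x) = -((a x : ℚ) * w (g • x)) := by
            intro x
            rw [Pi.neg_apply]; push_cast; ring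
          simp only [this]
          rw [Finset.sum_neg_distrib, ha', neg_zero] }
  have hMmem : ∀ m : S → ℤ, m ∈ M ↔ (∀ x, m (ι x) = - m x) ∧
      ∀ g : G, ∑ x, (m x : ℚ) * w (g • x) = 0 := fun _ => Iff.rfl
  obtain ⟨m, hm, T, hTB, hT, u, hu, huT⟩ := exists_half_block hι hne hcomm htr B hBι hB hcard M
    (by
      intro m hm g
      rw [hMmem] at hm ⊢
      refine ⟨fun x => ?_, fun h => ?_⟩
      · show m (g • ι x) = - m (g • x)
        rw [hcomm, hm.1]
      · have h4 := hm.2 (h * g⁻¹)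
        rw [← h4]
        refine Fintype.sum_equiv (MulAction.toPerm g) _ _ ?_
        intro x
        show (m (g • x) : ℚ) * w (h • x) = (m (g • x) : ℚ) * w ((h * g⁻¹) • g • x)
        rw [mul_smul, inv_smul_smul])
    (fun m hm => ((hMmem m).1 hm).1)
    (by
      intro m hm
      rw [hMmem] at hm ⊢
      have hr0 : (r : ℤ) ≠ 0 := by exact_mod_cast hr.out.ne_zero
      have hr1 : (r : ℚ) ≠ 0 := by exact_mod_cast hr.out.ne_zero
      refine ⟨fun x => ?_, fun g => ?_⟩
      · have h4 : (r : ℤ) * m (ι x) = - ((r : ℤ) * m x) := hm.1 x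
        apply mul_left_cancel₀ hr0
        rw [h4]; ring
      · have h4 := hm.2 g
        have h5 : ∑ x, (((r : ℤ) * m x : ℤ) : ℚ) * w (g • x) =
            (r : ℚ) * ∑ x, (m x : ℚ) * w (g • x) := by
          rw [Finset.mul_sum]
          refine Finset.sum_congr rfl fun x _ => ?_
          push_cast; ring
        rw [h5] at h4
        exact (mul_eq_zero.1 h4).resolve_left hr1)
    ((hMmem m₀).2 ⟨hodd, hrel⟩) h0
  rw [hMmem] at hm
  obtain ⟨hmodd, hmrel⟩ := hm
  have htot := hmrel 1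
  simp only [one_smul] at htot
  let e := Fintype.equivFin S
  have hne' : ∀ x, e x ≠ e (ι x) := fun x h => hne x (e.injective h).symm
  have hBι' : ∀ x, ι x ∈ B ↔ x ∈ B := by
    intro x
    constructor
    · intro h
      have := hBι _ h
      rwa [hι] at this
    · exact hBι x
  set T' : Finset S := Finset.univ.filter fun x => x ∉ B ∧ e x < e (ι x) with hT'
  have hdisj : Disjoint T T' := by
    rw [Finset.disjoint_left]
    intro x hx hx'
    exact (Finset.mem_filter.1 hx').2.1 (hTB x hx)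
  have hU : ∀ x, ι x ∈ T ∪ T' ↔ x ∉ T ∪ T' := by
    intro x
    rw [Finset.mem_union, Finset.mem_union]
    by_cases hx : x ∈ B
    · have e1 : x ∉ T' := fun h => (Finset.mem_filter.1 h).2.1 hx
      have e2 : ι x ∉ T' := fun h => (Finset.mem_filter.1 h).2.1 (hBι x hx)
      have e3 := hT x hx
      tauto
    · have e1 : x ∉ T := fun h => hx (hTB x h)
      have e2 : ι x ∉ T := fun h => hx ((hBι' x).1 (hTB _ h))
      have e3 : ι x ∈ T' ↔ x ∉ T' := by
        rw [hT', Finset.mem_filter, Finset.mem_filter, hι, hBι']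
        have h4 := hne' x
        constructor
        · rintro ⟨_, _, h5⟩ ⟨_, _, h6⟩
          exact absurd h5 (lt_asymm h6)
        · intro h5
          refine ⟨Finset.mem_univ _, hx, ?_⟩
          rcases lt_trichotomy (e x) (e (ι x)) with h' | h' | h'
          · exact absurd ⟨Finset.mem_univ _, hx, h'⟩ h5
          · exact absurd h' h4
          · exact h'
      tauto
  have hsum := sum_half hι (T ∪ T') hU (fun x => (m x : ℚ) * w x) (by
    intro x
    show (m (ι x) : ℚ) * w (ι x) = (m x : ℚ) * w x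
    rw [hmodd, hw]
    push_cast
    ring)
  rw [htot, Finset.sum_union hdisj] at hsum
  have hzero : ∑ x ∈ T, (m x : ℚ) * w x + ∑ x ∈ T', (m x : ℚ) * w x = 0 := by linarith
  -- lift `u` to an integer
  obtain ⟨u', hu'⟩ : ∃ u' : ℤ, (u' : ZMod r) = u := ⟨u.cast, by simp⟩
  have hru : ¬ (r : ℤ) ∣ u' := by
    intro h
    apply hu
    rw [← hu']
    rwa [ZMod.intCast_zmod_eq_zero_iff_dvd]
  have hdx : ∀ x ∈ T, ∃ d : ℤ, m x = u' + r * d := by
    intro x hx
    have h4 := huT x hx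
    rw [← hu', ZMod.intCast_eq_intCast_iff, Int.modEq_comm, Int.modEq_iff_dvd] at h4
    obtain ⟨d, hd⟩ := h4
    exact ⟨d, by linarith⟩
  choose! d hd using hdx
  have hmain : padicNorm r ((u' : ℚ) * ∑ x ∈ T, w x) = ρ := by
    rw [padicNorm.mul, h3 T hTB hT, (padicNorm.int_eq_one_iff u').2 hru, one_mul]
  have hrest1 : padicNorm r (∑ x ∈ T, (r : ℚ) * (d x : ℚ) * w x) < ρ := by
    refine padicNorm.sum_lt' (fun x hx => ?_) hρ
    rw [padicNorm.mul, padicNorm.mul]
    have e1 : padicNorm r (r : ℚ) < 1 := padicNorm.padicNorm_p_lt_one_of_prime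
    have e2 : padicNorm r (d x : ℚ) ≤ 1 := padicNorm.of_int (d x)
    have e3 := h1 x (hTB x hx)
    have e4 := padicNorm.nonneg (p := r) (d x : ℚ)
    have e5 := padicNorm.nonneg (p := r) (r : ℚ)
    have e6 := padicNorm.nonneg (p := r) (w x)
    calc padicNorm r (r : ℚ) * padicNorm r (d x : ℚ) * padicNorm r (w x)
        ≤ padicNorm r (r : ℚ) * 1 * ρ := by gcongr
      _ < 1 * ρ := by rw [mul_one]; gcongr
      _ = ρ := one_mul ρ
  have hrest2 : padicNorm r (∑ x ∈ T', (m x : ℚ) * w x) < ρ := by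
    refine padicNorm.sum_lt' (fun x hx => ?_) hρ
    have hxB := (Finset.mem_filter.1 hx).2.1
    rw [padicNorm.mul]
    have e2 : padicNorm r (m x : ℚ) ≤ 1 := padicNorm.of_int (m x)
    have e3 := h2 x hxB
    have e6 := padicNorm.nonneg (p := r) (w x)
    calc padicNorm r (m x : ℚ) * padicNorm r (w x) ≤ 1 * padicNorm r (w x) := by gcongr
      _ < ρ := by rw [one_mul]; exact e3
  have hsplit : ∑ x ∈ T, (m x : ℚ) * w x =
      (u' : ℚ) * ∑ x ∈ T, w x + ∑ x ∈ T, (r : ℚ) * (d x : ℚ) * w x := by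
    rw [Finset.mul_sum, ← Finset.sum_add_distrib]
    refine Finset.sum_congr rfl fun x hx => ?_
    rw [hd x hx]
    push_cast
    ring
  rw [hsplit, add_assoc] at hzero
  have hrest : padicNorm r (∑ x ∈ T, (r : ℚ) * (d x : ℚ) * w x +
      ∑ x ∈ T', (m x : ℚ) * w x) < ρ :=
    lt_of_le_of_lt padicNorm.nonarchimedean (max_lt hrest1 hrest2)
  have hfin := padicNorm.add_eq_max_of_ne (p := r) (q := (u' : ℚ) * ∑ x ∈ T, w x)
    (r := ∑ x ∈ T, (r : ℚ) * (d x : ℚ) * w x + ∑ x ∈ T', (m x : ℚ) * w x)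
    (by rw [hmain]; exact hrest.ne')
  rw [hzero, padicNorm.zero, hmain, max_eq_left hrest.le] at hfin
  exact hρ.ne hfin

end Pool.Agent.Helper66.NT
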