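import Mathlib

/-!
# Relations modulo a prime for a group acting on `2 r ^ k` points with an involution
-/

open MulAction

namespace Pool.Agent.Helper66.NT

/-- A Sylow `p`-subgroup acts transitively on a transitive set of `p`-power cardinality. -/
theorem sylow_transitive {G X : Type*} [Group G] [Finite G] [MulAction G X] [Finite X]
    [IsPretransitive G X] {p k : ℕ} [hp : Fact p.Prime] (hX : Nat.card X = p ^ k)
    (P : Sylow p G) (x y : X) : ∃ g ∈ P, g • x = y := by
  classical
  have hS : (stabilizer G x).index = p ^ k := by
    rw [index_stabilizer_of_transitive, hX]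
  have h1 : ((P : Subgroup G) ⊓ stabilizer G x).relIndex P * (P : Subgroup G).index =
      ((P : Subgroup G) ⊓ stabilizer G x).index := Subgroup.relIndex_mul_index inf_le_left
  have h2 : ((P : Subgroup G) ⊓ stabilizer G x).relIndex (stabilizer G x) *
      (stabilizer G x).index = ((P : Subgroup G) ⊓ stabilizer G x).index :=
    Subgroup.relIndex_mul_index inf_le_right
  rw [Subgroup.inf_relIndex_left] at h1
  rw [hS, ← h1] at h2
  have hdvd : p ^ k ∣ (stabilizer G x).relIndex P * (P : Subgroup G).index :=
    ⟨_, by rw [← h2, mul_comm]⟩
  have hcop : (p ^ k).Coprime (P : Subgroup G).index :=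
    (Nat.Prime.coprime_iff_not_dvd hp.out).2 P.not_dvd_index |>.pow_left k
  have hdvd2 : p ^ k ∣ (stabilizer G x).relIndex P := hcop.dvd_of_dvd_mul_right hdvd
  have horb : (stabilizer G x).relIndex P = (orbit P x).ncard := by
    rw [← index_stabilizer]
    rfl
  have hpos : 0 < (orbit P x).ncard := by
    rw [Set.ncard_pos (Set.toFinite _)]
    exact ⟨x, mem_orbit_self x⟩
  rw [horb] at hdvd2
  have hle : Nat.card X ≤ (orbit P x).ncard := by
    rw [hX]
    exact Nat.le_of_dvd hpos hdvd2
  have huniv : orbit P x = Set.univ := by
    apply Set.eq_of_subset_of_ncard_le (Set.subset_univ _)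
    rw [Set.ncard_univ]
    exact hle
  have hy : y ∈ orbit P x := by
    rw [huniv]
    exact Set.mem_univ y
  obtain ⟨g, hg⟩ := hy
  exact ⟨g.1, g.2, hg⟩

section

variable {G S : Type*} [Group G] [MulAction G S] (ι : S → S)

/-- The equivalence relation with classes `{x, ι x}`. -/
def pairSetoid (hι : ∀ x, ι (ι x) = x) : Setoid S where
  r x y := y = x ∨ y = ι x
  iseqv :=
    { refl := fun x => Or.inl rfl
      symm := by
        rintro x y (h | h)
        · exact Or.inl h.symm
        · exact Or.inr (by rw [h, hι])
      trans := by
        rintro x y z (h | h) (h' | h')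
        · exact Or.inl (by rw [h', h])
        · exact Or.inr (by rw [h', h])
        · exact Or.inr (by rw [h', h])
        · exact Or.inl (by rw [h', h, hι]) }

variable {ι}

/-- If `S` has `2 r ^ k` elements then a Sylow `r`-subgroup is transitive on the pairs. -/
theorem sylow_pairs [Finite G] [Finite S] [IsPretransitive G S] (hι : ∀ x, ι (ι x) = x)
    (hne : ∀ x, ι x ≠ x) (hcomm : ∀ (g : G) (x : S), g • ι x = ι (g • x)) {r k : ℕ}
    [hr : Fact r.Prime] (hS : Nat.card S = 2 * r ^ k) (P : Sylow r G) (x y : S) :
    ∃ g ∈ P, g • x = y ∨ g • x = ι y := by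
  classical
  letI st : Setoid S := pairSetoid ι hι
  have hcompat : ∀ (g : G) (a b : S), a ≈ b → g • a ≈ g • b := by
    rintro g a b (h | h)
    · exact Or.inl (by rw [h])
    · exact Or.inr (by rw [h, hcomm])
  letI act : MulAction G (Quotient st) :=
    { smul := fun g => Quotient.map (fun a => g • a) (hcompat g)
      one_smul := by
        intro a
        induction a using Quotient.inductionOn with
        | _ a =>
          show Quotient.mk st ((1 : G) • a) = _
          rw [one_smul]
      mul_smul := by
        intro g h a
        induction a using Quotient.inductionOn with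
        | _ a =>
          show Quotient.mk st ((g * h) • a) = Quotient.mk st (g • h • a)
          rw [mul_smul] }
  have hmk : ∀ (g : G) (a : S), g • Quotient.mk st a = Quotient.mk st (g • a) := fun _ _ => rfl
  have htrans : IsPretransitive G (Quotient st) := by
    refine ⟨fun a b => ?_⟩
    induction a using Quotient.inductionOn with
    | _ a =>
      induction b using Quotient.inductionOn with
      | _ b =>
        obtain ⟨g, hg⟩ := exists_smul_eq G a b
        exact ⟨g, by rw [hmk, hg]⟩
  have hfin : Finite (Quotient st) := Quotient.finite st
  have hcard : Nat.card (Quotient st) = r ^ k := by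
    letI := Fintype.ofFinite S
    letI := Fintype.ofFinite (Quotient st)
    have h1 : Fintype.card S = ∑ b : Quotient st,
        (Finset.univ.filter fun a => Quotient.mk st a = b).card :=
      Finset.card_eq_sum_card_fiberwise (s := Finset.univ) (t := Finset.univ)
        (fun a _ => Finset.mem_univ _)
    have h2 : ∀ b : Quotient st,
        (Finset.univ.filter fun a => Quotient.mk st a = b).card = 2 := by
      intro b
      induction b using Quotient.inductionOn with
      | _ b =>
        have h3 : (Finset.univ.filter fun a => Quotient.mk st a = Quotient.mk st b) =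
            {b, ι b} := by
          ext a
          rw [Finset.mem_filter, Finset.mem_insert, Finset.mem_singleton]
          constructor
          · rintro ⟨_, h⟩
            rcases Quotient.exact h with h' | h'
            · exact Or.inl h'.symm
            · exact Or.inr (by rw [h', hι])
          · rintro (h | h)
            · exact ⟨Finset.mem_univ _, by rw [h]⟩
            · refine ⟨Finset.mem_univ _, Quotient.sound ?_⟩
              exact Or.inr (by rw [h, hι])
        rw [h3, Finset.card_pair (hne b).symm]
    simp only [h2, Finset.sum_const, Finset.card_univ, smul_eq_mul] at h1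
    rw [Nat.card_eq_fintype_card] at hS ⊢
    omega
  obtain ⟨g, hg, h⟩ := sylow_transitive hcard P (Quotient.mk st x) (Quotient.mk st y)
  refine ⟨g, hg, ?_⟩
  rw [hmk] at h
  rcases Quotient.exact h with h' | h'
  · exact Or.inl h'.symm
  · exact Or.inr (by rw [h', hι])

end

end Pool.Agent.Helper66.NT
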